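import Pool.Agent.helper88.RQ2.Spec

/-!
ESPL: a set of points whose matroid is not connected splits into two nonempty parts whose ranks
add up.
-/

set_option autoImplicit false

open Set Matroid RadonMin

namespace RadonQ2

theorem ESPL_proof (hEB : EB_stmt) : ESPL_stmt := by
  classical
  intro V _ _ _ X hX
  obtain ⟨h1, -, h3, -, -, -, -⟩ := hEB V
  unfold Conn at hX
  push Not at hX
  obtain ⟨A, hA, hne, hne2, hle⟩ := hX
  rw [affMat_E] at hA hne2 hle
  have hfin : A.Finite := X.finite_toSet.subset hA
  have hAc : ((hfin.toFinset : Finset V) : Set V) = A := hfin.coe_toFinset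
  have hsub : hfin.toFinset ⊆ X := by
    intro x hx
    have : x ∈ (hfin.toFinset : Set V) := hx
    rw [hAc] at this
    exact hA this
  refine ⟨hfin.toFinset, hsub, ?_, ?_, ?_⟩
  · simpa using hne
  · rw [← Finset.coe_nonempty, Finset.coe_sdiff, hAc]
    exact hne2
  · have e1 := h1 _ _ hsub
    have e2 := h1 (X \ hfin.toFinset) X Finset.sdiff_subset
    have e3 := h3 hfin.toFinset (X \ hfin.toFinset)
    rw [Finset.union_sdiff_of_subset hsub] at e3
    rw [hAc] at e1
    rw [Finset.coe_sdiff, hAc] at e2
    have e4 : rk (affMat X) (X : Set V) = ra X := rfl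
    omega

end RadonQ2
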