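import Pool.Agent.helper88.RQ2.Spec

/-!
EUM: the sets with equality in the second family of linear bounds split into a planar piece and
lines.
-/

set_option autoImplicit false

open Set Matroid RadonMin

namespace RadonQ2

lemma EUM_T {V : Type} [AddCommGroup V] [Module ℝ V] [DecidableEq V] (m : ℕ) (X : Finset V) :
    TT m X.card (ra X) ≤ ci X := by
  have h := T_bound (affMat_simp X) (affMat_good X) m
  rw [affMat_E, ncard_coe_finset] at h
  exact h

lemma EUM_U {V : Type} [AddCommGroup V] [Module ℝ V] [DecidableEq V] (q k : ℕ) (X : Finset V)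
    (hk : 1 ≤ k) (hr : ra X = 2 * k + 1) (hq : 2 ≤ q) : UU q X.card k ≤ ci X := by
  have h := U_bound (affMat_simp X) (affMat_good X) k hk (by rw [affMat_E]; exact hr) q hq
  rw [affMat_E, ncard_coe_finset] at h
  exact h

theorem EUM_proof (hMSX : MSX_stmt) (hCTOP : CTOP_stmt) (hETM : ETM_stmt) (hEB : EB_stmt)
    (hESPL : ESPL_stmt) (hECI : ECI_stmt) (hEUN : EUN_stmt) : EUM_stmt := by
  classical
  intro V _ _ _
  obtain ⟨-, -, hsub, -, hemp, hne1, hne2⟩ := hEB V
  suffices H : ∀ n : ℕ, ∀ (q k : ℕ) (X : Finset V), X.card = n → 4 ≤ q → 1 ≤ k →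
      ra X = 2 * k + 1 → (ci X : ℤ) = UU q X.card k → DecTop (IsTop q) (KindT q) X by
    intro q k X hq hk hr hc
    exact H X.card q k X rfl hq hk hr hc
  intro n
  induction n using Nat.strong_induction_on with
  | _ n ih =>
  intro q k X hn hq hk hr hc
  rcases Nat.lt_or_ge k 2 with hk2 | hk2
  · obtain rfl : k = 1 := by omega
    have hX : X.Nonempty := by
      rw [Finset.nonempty_iff_ne_empty]
      rintro rfl
      rw [hemp] at hr
      omega
    refine ⟨X, Finset.Subset.refl X, hX, hCTOP V q X hq (by omega) hc, ?_, ?_⟩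
    · rw [Finset.sdiff_self]
      refine ⟨∅, by simp, by simp, by simp, ?_⟩
      rw [Finset.sum_empty, hemp]
    · rw [Finset.sdiff_self, hemp, add_zero]
  · have hnc : ¬ Conn (affMat X) := by
      intro hcon
      have h := hMSX V (affMat X) (affMat_simp X) (affMat_good X) hcon k hk2
        (by rw [affMat_E]; exact hr) q (by omega)
      rw [affMat_E, ncard_coe_finset] at h
      have h2 : (ci X : ℤ) = (cc (affMat X) : ℤ) := rfl
      rw [← h2] at h
      omega
    have key : ∀ A : Finset V, A ⊆ X → A.Nonempty → (X \ A).Nonempty →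
        ra A + ra (X \ A) = ra X → (∃ k₁, ra A = 2 * k₁ + 1) →
        DecTop (IsTop q) (KindT q) X := by
      intro A hA hAne hBne hsum hodd
      obtain ⟨k₁, hk₁⟩ := hodd
      have hci := hECI V X A hA hsum
      have hcardB : (X \ A).card + A.card = X.card := Finset.card_sdiff_add_card_eq_card hA
      have hBpos : 0 < (X \ A).card := Finset.card_pos.2 hBne
      have hApos : 0 < A.card := Finset.card_pos.2 hAne
      have hT := EUM_T q (X \ A)
      have hcm := choose_two_mul q
      have h5 : ((X \ A).card : ℤ) + A.card = X.card := by exact_mod_cast hcardB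
      have h6 : (ra A : ℤ) + ra (X \ A) = 2 * k + 1 := by
        have : ra A + ra (X \ A) = 2 * k + 1 := by omega
        exact_mod_cast this
      have h7 : (ci X : ℤ) = ci A + ci (X \ A) := by exact_mod_cast hci
      rcases Nat.eq_zero_or_pos k₁ with h0 | h0
      · exfalso
        subst h0
        have hA1 : A.card = 1 := by
          by_contra hne
          have := hne2 A (by omega)
          omega
        have h8 : (0 : ℤ) ≤ ci A := by positivity
        have h9 : (ra A : ℤ) = 1 := by exact_mod_cast hk₁
        have h10 : (hh (q + 2) : ℤ) < (q + 1).choose 3 := by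
          rw [hh_cast, show q + 2 - 1 = q + 1 by omega]
          have h11 : 0 < corr (q + 1) := by
            unfold corr
            omega
          have : (0 : ℤ) < corr (q + 1) := by exact_mod_cast h11
          linarith
        have h13 : ((X \ A).card : ℤ) = X.card - 1 := by
          rw [hA1] at h5
          push_cast at h5
          linarith
        have h14 : (ra (X \ A) : ℤ) = 2 * k := by linarith
        unfold TT at hT
        unfold UU at hc
        rw [h13, h14] at hT
        nlinarith
      · have hU := EUM_U q k₁ A h0 hk₁ (by omega)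
        have h8 : (ra A : ℤ) = 2 * k₁ + 1 := by exact_mod_cast hk₁
        have h9 : (ra (X \ A) : ℤ) = 2 * k - 2 * k₁ := by linarith
        have hsplit : UU q X.card k = UU q A.card k₁ + TT q (X \ A).card (ra (X \ A)) := by
          unfold UU TT
          rw [h9, ← h5]
          ring
        have hcA : (ci A : ℤ) = UU q A.card k₁ := by linarith
        have hcB : (ci (X \ A) : ℤ) = TT q (X \ A).card (ra (X \ A)) := by linarith
        obtain ⟨B₀, hB1, hB2, hB3, hB4, hB5⟩ := ih A.card (by omega) q k₁ A rfl hq h0 hk₁ hcA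
        have hdB := hETM V q (X \ A) (by omega) hcB
        have e1 : (X \ B₀) \ (A \ B₀) = X \ A := by
          ext x
          simp only [Finset.mem_sdiff]
          constructor
          · rintro ⟨⟨hx, hx2⟩, hx3⟩
            exact ⟨hx, fun hxA => hx3 ⟨hxA, hx2⟩⟩
          · rintro ⟨hx, hx2⟩
            exact ⟨⟨hx, fun hxB => hx2 (hB1 hxB)⟩, fun h => hx2 h.1⟩
        have hsA : A \ B₀ ⊆ X \ B₀ := Finset.sdiff_subset_sdiff hA (Finset.Subset.refl _)
        have s1 := hsub (A \ B₀) (X \ A)
        have e2 : (A \ B₀) ∪ (X \ A) = X \ B₀ := by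
          rw [← e1]
          exact Finset.union_sdiff_of_subset hsA
        rw [e2] at s1
        have s2 := hsub B₀ (X \ B₀)
        rw [Finset.union_sdiff_of_subset (hB1.trans hA)] at s2
        refine ⟨B₀, hB1.trans hA, hB2, hB3, ?_, by omega⟩
        refine hEUN V (KindT q) (X \ B₀) (A \ B₀) hsA ?_ hB4 ?_
        · rw [e1]
          omega
        · rw [e1]
          exact hdB
    obtain ⟨A, hA, hA1, hA2, hsum⟩ := hESPL V X hnc
    rcases Nat.even_or_odd' (ra A) with ⟨a, ha | ha⟩
    · have e3 : X \ (X \ A) = A := by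
        rw [Finset.sdiff_sdiff_eq_self hA]
      refine key (X \ A) Finset.sdiff_subset hA2 (by rw [e3]; exact hA1)
        (by rw [e3]; omega) ⟨k - a, by omega⟩
    · exact key A hA hA1 hA2 hsum ⟨a, ha⟩

end RadonQ2
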